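import Pool.Agent.Run7.h558.SsD

/-!
# SparseStack matrices of constant sparsity are not oblivious subspace injections

Let `V` be spanned by the first `r` coordinate vectors.  With probability close to `1` some row
`i₀` has, in each of the `ζ` blocks, at least `D` other rows in its bucket.  Subtracting from `e_{i₀}`
signed averages of `D` of these rows in each block gives a vector of norm at least `1` whose image
has expected squared norm (over the signs) at most `ζ² / D`.
-/

set_option autoImplicit false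
open Finset Filter Topology

namespace Pool.Agent.Results.MP_59a663_pr.NoConstantSparsity

/-- The sample space of the SparseStack matrix with `n` rows and `ζ` blocks of length `b`: the
positions `s j i` and the signs `ρ j i` (block `j`, row `i`), with the uniform distribution. -/
abbrev Sample (n ζ b : ℕ) := (Fin ζ → Fin n → Fin b) × (Fin ζ → Fin n → Bool)

/-- The SparseStack matrix `Ω`: block `j` of row `i` is `ζ^(-1/2)` times the sign times the
standard basis vector at the position. -/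
noncomputable def stack {n ζ b : ℕ} (ω : Sample n ζ b) : Matrix (Fin n) (Fin ζ × Fin b) ℝ :=
  fun i p => if ω.1 p.1 i = p.2 then (if ω.2 p.1 i then 1 else -1) / Real.sqrt ζ else 0

/-- The squared Euclidean norm. -/
def normSq {ι : Type} [Fintype ι] (x : ι → ℝ) : ℝ := ∑ i, x i ^ 2

/-- The injectivity inequality with parameter `α` on the subspace `V`. -/
def IsInjectiveOn {n ζ b : ℕ} (ω : Sample n ζ b) (V : Submodule ℝ (Fin n → ℝ)) (α : ℝ) : Prop :=
  ∀ x ∈ V, α * normSq x ≤ normSq ((stack ω).transpose.mulVec x)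

open Classical in
/-- The probability of an event under the uniform distribution. -/
noncomputable def prob {X : Type} [Fintype X] (E : X → Prop) : ℝ :=
  ((univ.filter E).card : ℝ) / Fintype.card X

/-- The SparseStack matrix with `n` rows and `ζ` blocks of length `b` is an oblivious subspace
injection for `r`-dimensional subspaces with parameter `α` and failure probability `δ`. -/
def IsOSI (n r ζ b : ℕ) (α δ : ℝ) : Prop :=
  ∀ V : Submodule ℝ (Fin n → ℝ), Module.finrank ℝ V = r →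
    1 - δ ≤ prob (fun ω : Sample n ζ b => IsInjectiveOn ω V α)

/-! ### The coordinate subspace -/

/-- Extension by zero. -/
def ext (n r : ℕ) : (Fin r → ℝ) →ₗ[ℝ] (Fin n → ℝ) where
  toFun y i := if h : (i : ℕ) < r then y ⟨i, h⟩ else 0
  map_add' y z := by
    funext i
    by_cases h : (i : ℕ) < r <;> simp [h]
  map_smul' c y := by
    funext i
    by_cases h : (i : ℕ) < r <;> simp [h]

theorem ext_injective {n r : ℕ} (h : r ≤ n) : Function.Injective (ext n r) := by
  intro y z hyz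
  funext i
  have h1 := congrFun hyz ⟨i, lt_of_lt_of_le i.2 h⟩
  simpa [ext] using h1

/-- The span of the first `r` coordinate vectors. -/
def coordSpace (n r : ℕ) : Submodule ℝ (Fin n → ℝ) := LinearMap.range (ext n r)

theorem finrank_coordSpace {n r : ℕ} (h : r ≤ n) : Module.finrank ℝ (coordSpace n r) = r := by
  unfold coordSpace
  rw [LinearMap.finrank_range_of_inj (ext_injective h), Module.finrank_fin_fun]

theorem mem_coordSpace {n r : ℕ} {x : Fin n → ℝ} (hx : ∀ i : Fin n, r ≤ (i : ℕ) → x i = 0) :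
    x ∈ coordSpace n r := by
  by_cases h : r ≤ n
  · refine ⟨fun i => x ⟨i, lt_of_lt_of_le i.2 h⟩, ?_⟩
    funext i
    by_cases hi : (i : ℕ) < r
    · simp [ext, hi]
    · simp [ext, hi, hx i (not_lt.1 hi)]
  · refine ⟨fun i => if hi : (i : ℕ) < n then x ⟨i, hi⟩ else 0, ?_⟩
    funext i
    have hi : (i : ℕ) < r := by omega
    simp [ext, hi]

theorem image_eq {n ζ b : ℕ} (ω : Sample n ζ b) (x : Fin n → ℝ) :
    normSq ((stack ω).transpose.mulVec x) =
      (1 / ζ) * ∑ j, ∑ l, Run7.h558.Ss.Z ω.1 ω.2 x j l ^ 2 := by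
  unfold normSq
  rw [Fintype.sum_prod_type, mul_sum]
  refine sum_congr rfl fun j _ => ?_
  rw [mul_sum]
  refine sum_congr rfl fun l _ => ?_
  have h1 : (stack ω).transpose.mulVec x (j, l) =
      (1 / Real.sqrt ζ) * Run7.h558.Ss.Z ω.1 ω.2 x j l := by
    unfold Run7.h558.Ss.Z
    rw [Matrix.mulVec, mul_sum]
    simp only [dotProduct, Matrix.transpose_apply, stack, Run7.h558.Ss.sg]
    refine sum_congr rfl fun i _ => ?_
    split_ifs <;> ring
  rw [h1, mul_pow]
  congr 1
  rw [div_pow, one_pow, Real.sq_sqrt (Nat.cast_nonneg _)]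

theorem inj_of {n ζ b r : ℕ} {α : ℝ} {ω : Sample n ζ b} (h : IsInjectiveOn ω (coordSpace n r) α) :
    Run7.h558.Ss.Inj r α ω.1 ω.2 := by
  intro x hx
  have h1 := h x (mem_coordSpace hx)
  rw [image_eq] at h1
  exact h1

theorem card_sample_pos {n ζ b : ℕ} (hb : 1 ≤ b) : (0 : ℝ) < Fintype.card (Sample n ζ b) := by
  have : Nonempty (Fin b) := ⟨⟨0, by omega⟩⟩
  exact_mod_cast Fintype.card_pos

/-- With fewer than `r` columns injectivity always fails. -/
theorem few_columns {n ζ b r : ℕ} {α : ℝ} (hα : 0 < α) (h : r ≤ n) (hr : b * ζ < r)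
    (ω : Sample n ζ b) : ¬ IsInjectiveOn ω (coordSpace n r) α := by
  intro hinj
  let f : (Fin r → ℝ) →ₗ[ℝ] (Fin ζ × Fin b → ℝ) :=
    ((stack ω).transpose.mulVecLin).comp (ext n r)
  have h1 : Module.finrank ℝ (Fin ζ × Fin b → ℝ) < Module.finrank ℝ (Fin r → ℝ) := by
    rw [Module.finrank_fin_fun, Module.finrank_fintype_fun_eq_card, Fintype.card_prod,
      Fintype.card_fin, Fintype.card_fin, Nat.mul_comm]
    exact hr
  have h2 := LinearMap.ker_ne_bot_of_finrank_lt (f := f) h1
  obtain ⟨y, hy, hy0⟩ := (Submodule.ne_bot_iff _).1 h2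
  have hy' : (stack ω).transpose.mulVec (ext n r y) = 0 := hy
  have h3 := hinj (ext n r y) ⟨y, rfl⟩
  rw [hy'] at h3
  have h4 : ext n r y ≠ 0 := by
    intro h5
    apply hy0
    apply ext_injective h
    rw [h5, map_zero]
  obtain ⟨i, hi⟩ := Function.ne_iff.1 h4
  have h5 : 0 < normSq (ext n r y) := by
    unfold normSq
    apply sum_pos' (fun i _ => sq_nonneg _)
    exact ⟨i, mem_univ i, by have : ext n r y i ≠ 0 := hi; positivity⟩
  have h6 : normSq (0 : Fin ζ × Fin b → ℝ) = 0 := by simp [normSq]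
  rw [h6] at h3
  have := mul_pos hα h5
  linarith

theorem strong (C₁ C₂ α δ : ℝ) (hα : 0 < α) (hδ : δ < 1) : ∃ R : ℕ, ∀ r ≥ R, ∀ n ≥ r,
    ∀ ζ b : ℕ, 1 ≤ ζ → 1 ≤ b → (ζ : ℝ) ≤ C₁ → ((b * ζ : ℕ) : ℝ) ≤ C₂ * r →
      ¬ IsOSI n r ζ b α δ := by
  classical
  obtain ⟨R, hR⟩ := Run7.h558.Ss.main_core C₁ C₂ α δ hα hδ
  refine ⟨R, fun r hr n hn ζ b hζ hb hζC hbC hosi => ?_⟩
  have h1 := hosi (coordSpace n r) (finrank_coordSpace hn)
  have hpos := card_sample_pos (n := n) (ζ := ζ) hb
  unfold prob at h1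
  rw [le_div_iff₀ hpos] at h1
  by_cases hrb : r ≤ b * ζ
  · have h2 := hR r hr n hn ζ b hζ hb hζC hbC hrb
    have h3 : ((univ.filter (fun ω : Sample n ζ b => IsInjectiveOn ω (coordSpace n r) α)).card :
        ℝ) ≤ ((univ.filter (fun ω : (Fin ζ → Fin n → Fin b) × (Fin ζ → Fin n → Bool) =>
          Run7.h558.Ss.Inj r α ω.1 ω.2)).card : ℝ) := by
      have : (univ.filter (fun ω : Sample n ζ b => IsInjectiveOn ω (coordSpace n r) α)).card ≤
          (univ.filter (fun ω : (Fin ζ → Fin n → Fin b) × (Fin ζ → Fin n → Bool) =>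
            Run7.h558.Ss.Inj r α ω.1 ω.2)).card := by
        apply card_le_card
        intro ω hω
        rw [mem_filter] at hω ⊢
        exact ⟨hω.1, inj_of hω.2⟩
      exact_mod_cast this
    have h4 : (univ.filter fun ω : Sample n ζ b => IsInjectiveOn ω (coordSpace n r) α) =
        @filter _ (fun ω : Sample n ζ b => IsInjectiveOn ω (coordSpace n r) α)
          (fun a => Classical.propDecidable _) univ := by
      congr
    rw [h4] at h3
    linarith
  · have h2 : @filter _ (fun ω : Sample n ζ b => IsInjectiveOn ω (coordSpace n r) α)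
          (fun a => Classical.propDecidable _) univ = ∅ := by
      rw [filter_eq_empty_iff]
      intro ω _
      exact few_columns hα hn (not_le.1 hrb) ω
    rw [h2, card_empty, Nat.cast_zero] at h1
    have : 0 < (1 - δ) * Fintype.card (Sample n ζ b) := mul_pos (by linarith) hpos
    linarith

theorem exists_large {c : ℝ} (hc : 0 < c) (r : ℕ) : ∃ n : ℕ, r ≤ n ∧
    (r : ℝ) ≤ c * n / Real.log n := by
  have h1 : (fun x : ℝ => Real.log x) =o[atTop] fun x : ℝ => x := Real.isLittleO_log_id_atTop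
  have h2 := (h1.comp_tendsto tendsto_natCast_atTop_atTop).def
    (show (0 : ℝ) < c / (r + 1) by positivity)
  obtain ⟨n, hn⟩ := (h2.and (eventually_ge_atTop (r + 2))).exists
  refine ⟨n, by omega, ?_⟩
  have hn2 : (2 : ℝ) ≤ n := by exact_mod_cast (by omega : 2 ≤ n)
  have hlog : 0 < Real.log n := Real.log_pos (by linarith)
  have h3 := hn.1
  simp only [Function.comp, Real.norm_eq_abs] at h3
  rw [abs_of_pos hlog, abs_of_pos (by linarith : (0 : ℝ) < n)] at h3
  rw [le_div_iff₀ hlog]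
  have hrr : (0 : ℝ) ≤ r := Nat.cast_nonneg r
  calc (r : ℝ) * Real.log n ≤ (r + 1) * Real.log n := by gcongr; linarith
    _ ≤ (r + 1) * (c / (r + 1) * n) := by gcongr
    _ = c * n := by field_simp

/-- (1) For bounded sparsity `ζ` and a number of columns `k = b ζ` at most proportional to `r`, the
SparseStack matrix is not an oblivious subspace injection with constant parameter `α`, for any
constant failure probability `δ < 1` and all sufficiently large `r`.
(2) The negated form of Q1. (3) The negative answer to Q2. -/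
theorem result :
    (∀ C₁ C₂ α δ : ℝ, 0 < α → δ < 1 → ∃ R : ℕ, ∀ r ≥ R, ∀ n ≥ r, ∀ ζ b : ℕ, 1 ≤ ζ → 1 ≤ b →
      (ζ : ℝ) ≤ C₁ → ((b * ζ : ℕ) : ℝ) ≤ C₂ * r → ¬ IsOSI n r ζ b α δ) ∧
    (∀ c C₁ C₂ α₀ : ℝ, 0 < c → 0 < C₁ → 0 < C₂ → 0 < α₀ → ∃ n r : ℕ, 1 ≤ r ∧
      (r : ℝ) ≤ c * n / Real.log n ∧ ∀ ζ b : ℕ, 1 ≤ ζ → 1 ≤ b → (ζ : ℝ) ≤ C₁ →
        ((b * ζ : ℕ) : ℝ) ≤ C₂ * r → ¬ IsOSI n r ζ b α₀ (1 / 100)) ∧
    (∀ α₀ : ℝ, 0 < α₀ → ∃ R : ℕ, ∀ r ≥ R, Even r → ∀ n ≥ r,
      ¬ IsOSI n r 4 (r / 2) α₀ (1 / 100)) := by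
  refine ⟨fun C₁ C₂ α δ hα hδ => strong C₁ C₂ α δ hα hδ, ?_, ?_⟩
  · intro c C₁ C₂ α₀ hc _ _ hα
    obtain ⟨R, hR⟩ := strong C₁ C₂ α₀ (1 / 100) hα (by norm_num)
    obtain ⟨n, hn, hn'⟩ := exists_large hc (max R 1)
    exact ⟨n, max R 1, le_max_right _ _, hn', fun ζ b hζ hb h1 h2 =>
      hR (max R 1) (le_max_left _ _) n hn ζ b hζ hb h1 h2⟩
  · intro α₀ hα
    obtain ⟨R, hR⟩ := strong 4 2 α₀ (1 / 100) hα (by norm_num)
    refine ⟨max R 2, fun r hr he n hn => ?_⟩
    have hr2 : 2 ≤ r := (le_max_right _ _).trans hr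
    obtain ⟨m, hm⟩ := he
    apply hR r ((le_max_left _ _).trans hr) n hn 4 (r / 2) (by norm_num) (by omega) (by norm_num)
    have h1 : r / 2 * 4 = 2 * r := by omega
    rw [h1]
    push_cast
    exact le_rfl

end Pool.Agent.Results.MP_59a663_pr.NoConstantSparsity
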